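import Pool.Agent.H849.CC.Split
import Pool.Graph.R_seed8.Y143.Pure

/-!
# The moving part of the weight spectral sequence
-/

set_option autoImplicit false

open Module

universe u v

namespace Pool.Agent.H849.CC

open Pool.Agent.Y143

section rep

variable {Ω : Type u} [Field Ω] {V : Type v} [AddCommGroup V] [Module Ω V] {G : Type} [Group G]

theorem mem_fixed {ρ : G →* Module.End Ω V} {v : V} : v ∈ fixed ρ ↔ ∀ g, ρ g v = v := by
  unfold fixed
  rw [Submodule.mem_iInf]
  refine forall_congr' fun g => ?_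
  rw [LinearMap.mem_ker, LinearMap.sub_apply, Module.End.one_apply, sub_eq_zero]

variable [Fintype G]

theorem mem_moving {ρ : G →* Module.End Ω V} {v : V} : v ∈ moving ρ ↔ ∑ g, ρ g v = 0 := by
  unfold moving
  rw [LinearMap.mem_ker, LinearMap.sum_apply]

theorem sum_left (ρ : G →* Module.End Ω V) (h : G) (v : V) : ∑ g, ρ g (ρ h v) = ∑ g, ρ g v := by
  have : ∀ g, ρ g (ρ h v) = ρ (g * h) v := fun g => by rw [map_mul, Module.End.mul_apply]
  simp_rw [this]
  exact Fintype.sum_equiv (Equiv.mulRight h) _ _ fun g => rfl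

theorem sum_right (ρ : G →* Module.End Ω V) (h : G) (v : V) : ρ h (∑ g, ρ g v) = ∑ g, ρ g v := by
  rw [map_sum]
  have : ∀ g, ρ h (ρ g v) = ρ (h * g) v := fun g => by rw [map_mul, Module.End.mul_apply]
  simp_rw [this]
  exact Fintype.sum_equiv (Equiv.mulLeft h) _ _ fun g => rfl

variable [CharZero Ω]

theorem card_ne : (Fintype.card G : Ω) ≠ 0 := Nat.cast_ne_zero.2 Fintype.card_ne_zero

/-- The projection to the invariants. -/
noncomputable def avg (ρ : G →* Module.End Ω V) : Module.End Ω V :=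
  (Fintype.card G : Ω)⁻¹ • ∑ g, ρ g

omit [CharZero Ω] in
theorem avg_apply (ρ : G →* Module.End Ω V) (v : V) :
    avg ρ v = (Fintype.card G : Ω)⁻¹ • ∑ g, ρ g v := by
  unfold avg
  rw [LinearMap.smul_apply, LinearMap.sum_apply]

theorem avg_of_fixed {ρ : G →* Module.End Ω V} {v : V} (h : ∀ g, ρ g v = v) : avg ρ v = v := by
  rw [avg_apply]
  simp_rw [h]
  rw [Finset.sum_const, Finset.card_univ, ← Nat.cast_smul_eq_nsmul Ω, smul_smul,
    inv_mul_cancel₀ card_ne, one_smul]

omit [CharZero Ω] in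
theorem avg_fixed (ρ : G →* Module.End Ω V) (v : V) (g : G) : ρ g (avg ρ v) = avg ρ v := by
  rw [avg_apply, map_smul, sum_right]

theorem mem_fixed_iff {ρ : G →* Module.End Ω V} {v : V} : v ∈ fixed ρ ↔ avg ρ v = v := by
  rw [mem_fixed]
  constructor
  · exact avg_of_fixed
  · intro h g
    rw [← h, avg_fixed]

theorem mem_moving_iff {ρ : G →* Module.End Ω V} {v : V} : v ∈ moving ρ ↔ avg ρ v = 0 := by
  rw [mem_moving, avg_apply, smul_eq_zero_iff_right (inv_ne_zero card_ne)]

theorem avg_avg (ρ : G →* Module.End Ω V) (v : V) : avg ρ (avg ρ v) = avg ρ v :=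
  avg_of_fixed fun g => avg_fixed ρ v g

omit [CharZero Ω] in
theorem avg_comm {ρ : G →* Module.End Ω V} {f : Module.End Ω V} (h : ∀ g v, f (ρ g v) = ρ g (f v))
    (v : V) : f (avg ρ v) = avg ρ (f v) := by
  rw [avg_apply, avg_apply, map_smul, map_sum]
  simp_rw [h]

end rep

variable {Ω : Type u} [Field Ω] [CharZero Ω] {Γ : Type} {n q : ℕ}
  {X : SemistableModel.{u, v} Ω Γ n q} {G : Type} [Group G] {A : GroupAction X.generic G}

namespace GroupAction

/-- The action on the families of cohomology classes. -/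
def onC (A : GroupAction X.generic G) : G →* Module.End Ω X.C where
  toFun g := onFamilies fun a => A.onH a g
  map_one' := by
    ext x a
    show A.onH a 1 (x a) = x a
    rw [map_one, Module.End.one_apply]
  map_mul' g h := by
    ext x a
    show A.onH a (g * h) (x a) = A.onH a g (A.onH a h (x a))
    rw [map_mul, Module.End.mul_apply]

theorem onC_apply (A : GroupAction X.generic G) (g : G) (x : X.C) (a : ℕ) :
    A.onC g x a = A.onH a g (x a) := rfl

section
variable (hA : A.IsAction)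
include hA

theorem IsAction.gr (g : G) (a : ℕ) (m : ℤ) (x : X.H a) (hx : x ∈ X.gr a m) :
    A.onH a g x ∈ X.gr a m := (hA g).1.gr a m x hx

theorem IsAction.pair (g : G) (a : ℕ) (x y : X.H a) :
    X.pair a (A.onH a g x) (A.onH a g y) = X.pair a x y := (hA g).1.pair a x y

theorem IsAction.res (g : G) (a : ℕ) (x : X.H a) :
    X.res a (A.onH a g x) = A.onH (a + 1) g (X.res a x) := (hA g).1.res a x

theorem IsAction.frob (g : G) (i : ℕ) (v : X.V i) :
    X.actV i X.frob (A.onV i g v) = A.onV i g (X.actV i X.frob v) := (hA g).2.frob i v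

theorem IsAction.monodromy (g : G) (i : ℕ) (v : X.V i) :
    X.N i (A.onV i g v) = A.onV i g (X.N i v) := (hA g).2.monodromy i v

theorem IsAction.sp (g : G) (i : ℕ) (w : ℤ) (v : X.V i) (x : X.C) (h : (v, x) ∈ X.sp i w) :
    (A.onV i g v, A.onC g x) ∈ X.sp i w := (hA g).2.sp i w v x h

theorem gys (g : G) (a : ℕ) (x : X.H (a + 1)) :
    X.gys a (A.onH (a + 1) g x) = A.onH a g (X.gys a x) := by
  rw [← sub_eq_zero]
  apply X.pair_nondeg
  intro y
  have e : y = A.onH a g (A.onH a g⁻¹ y) := by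
    rw [← Module.End.mul_apply, ← map_mul, mul_inv_cancel, map_one, Module.End.one_apply]
  rw [map_sub, LinearMap.sub_apply, X.pair_gys, sub_eq_zero]
  conv_lhs => rw [e, hA.res, hA.pair]
  conv_rhs => rw [e, hA.pair]
  rw [X.pair_gys]

theorem diff_onC (r : ℤ) (g : G) (x : X.C) : X.diff r (A.onC g x) = A.onC g (X.diff r x) := by
  funext a
  rw [onC_apply, X.diff_apply, X.diff_apply]
  by_cases hc : InColumn (r + 1) a
  · rw [X.cut_of hc, X.cut_of hc, Pi.add_apply, Pi.add_apply, map_add]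
    congr 1
    · cases a with
      | zero => rw [X.resC_zero, X.resC_zero, map_zero]
      | succ b =>
        rw [X.resC_succ, X.resC_succ]
        exact hA.res g b _
    · rw [X.gysC_apply, X.gysC_apply]
      exact gys hA g a _
  · rw [X.cut_of_not hc, X.cut_of_not hc, map_zero]

theorem onC_mem {r w : ℤ} (g : G) {x : X.C} (hx : x ∈ X.E₁ r w) : A.onC g x ∈ X.E₁ r w := by
  intro a
  rw [onC_apply]
  refine ⟨hA.gr g a _ _ (hx a).1, fun h => ?_⟩
  rw [(hx a).2 h, map_zero]

/-- The action is trivial outside of the middle degree. -/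
theorem trivial_outside (h : A.TrivialBelowMiddle n) (g : G) (a : ℕ) (m : ℤ) (x : X.H a)
    (hm : m ≠ n - a) (hx : x ∈ X.gr a m) : A.onH a g x = x := by
  rcases lt_or_gt_of_ne hm with hm | hm
  · exact h g a m hm x hx
  · rw [← sub_eq_zero]
    apply X.pair_nondeg
    intro y
    refine X.gr_induction (P := fun y => X.pair a (A.onH a g x - x) y = 0) (by simp)
      (fun x y hx hy => by rw [map_add, hx, hy, add_zero]) (fun m' y hy => ?_) y
    rw [map_sub, LinearMap.sub_apply]
    by_cases hmm : m + m' = 2 * ((n : ℤ) - a)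
    · have h1 : A.onH a g y = y := h g a m' (by omega) y hy
      conv_lhs => rw [← h1]
      rw [hA.pair]
      conv_lhs => rw [h1]
      rw [sub_self]
    · rw [X.pair_gr a m m' _ _ (hA.gr g a m x hx) hy hmm, X.pair_gr a m m' _ _ hx hy hmm, sub_self]

/-- The action is trivial on the terms of the spectral sequence outside of the total degree `n`. -/
theorem trivial_E₁ (h : A.TrivialBelowMiddle n) {r w : ℤ} (hrw : r + w ≠ n) (g : G) {x : X.C}
    (hx : x ∈ X.E₁ r w) : A.onC g x = x := by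
  funext a
  rw [onC_apply]
  exact trivial_outside hA h g a _ _ (by omega) (hx a).1

variable [Fintype G]

/-- The moving elements outside of the total degree `n` are zero. -/
theorem moving_E₁ (h : A.TrivialBelowMiddle n) {r w : ℤ} (hrw : r + w ≠ n) {x : X.C}
    (hx : x ∈ X.E₁ r w) (h0 : avg A.onC x = 0) : x = 0 := by
  rw [← h0]
  exact (avg_of_fixed fun g => trivial_E₁ hA h hrw g hx).symm

theorem avg_mem {r w : ℤ} {x : X.C} (hx : x ∈ X.E₁ r w) : avg A.onC x ∈ X.E₁ r w := by
  rw [avg_apply]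
  exact Submodule.smul_mem _ _ (Submodule.sum_mem _ fun g _ => onC_mem hA g hx)

theorem sp_avg {i : ℕ} {w : ℤ} {v : X.V i} {x : X.C} (h : (v, x) ∈ X.sp i w) :
    (avg (A.onV i) v, avg A.onC x) ∈ X.sp i w := by
  rw [avg_apply, avg_apply]
  have h1 : ∑ g, ((A.onV i g v, A.onC g x) : X.V i × X.C) ∈ X.sp i w :=
    Submodule.sum_mem _ fun g _ => hA.sp g i w v x h
  have h2 : ∑ g, ((A.onV i g v, A.onC g x) : X.V i × X.C) =
      (∑ g, A.onV i g v, ∑ g, A.onC g x) := by
    apply Prod.ext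
    · rw [Prod.fst_sum]
    · rw [Prod.snd_sum]
  rw [h2] at h1
  exact Submodule.smul_mem _ (Fintype.card G : Ω)⁻¹ h1

/-- The representatives of moving vectors can be chosen moving. -/
theorem sp_moving {i : ℕ} {w : ℤ} {v : X.V i} (hv : avg (A.onV i) v = 0) (hw : v ∈ X.W i w) :
    ∃ x, (v, x) ∈ X.sp i w ∧ avg A.onC x = 0 := by
  obtain ⟨x, hx⟩ := X.sp_left i w v hw
  refine ⟨x - avg A.onC x, ?_, ?_⟩
  · have h1 := Submodule.sub_mem _ hx (sp_avg hA hx)
    rw [hv] at h1
    rwa [Prod.mk_sub_mk, sub_zero] at h1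
  · rw [map_sub, avg_avg, sub_self]

/-- In the degrees different from `n` there are no moving vectors. -/
theorem moving_eq_zero (h : A.TrivialBelowMiddle n) {i : ℕ} (hi : i ≠ n) {v : X.V i}
    (hv : avg (A.onV i) v = 0) : v = 0 := by
  obtain ⟨b, hb⟩ := X.W_bot i
  obtain ⟨t, ht⟩ := X.W_top i
  have key : ∀ k : ℕ, v ∈ X.W i (t - k) := by
    intro k
    induction k with
    | zero =>
      rw [Nat.cast_zero, sub_zero, ht]
      trivial
    | succ k ih =>
      obtain ⟨x, hx, hx0⟩ := sp_moving hA hv ih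
      have h1 : x = 0 := moving_E₁ hA h (by omega) (X.sp_mem i _ v x hx).2.1 hx0
      have h2 := (X.sp_ker i _ v x hx).2 (by rw [h1]; exact Submodule.zero_mem _)
      rwa [show t - (k : ℤ) - 1 = t - ((k + 1 : ℕ) : ℤ) by push_cast; ring] at h2
  have h1 := X.W_mono i (show t - ((t - b).toNat : ℤ) ≤ b by
    have := Int.self_le_toNat (t - b)
    omega) (key (t - b).toNat)
  rw [hb] at h1
  exact h1

/-- The group acts trivially in the degrees different from `n`. -/
theorem trivial_V (h : A.TrivialBelowMiddle n) {i : ℕ} (hi : i ≠ n) (g : G) (v : X.V i) :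
    A.onV i g v = v := by
  have h1 : v - avg (A.onV i) v = 0 := moving_eq_zero hA h hi (by rw [map_sub, avg_avg, sub_self])
  rw [sub_eq_zero] at h1
  rw [h1, avg_fixed]

/-- The moving part of the middle degree is mw pure. -/
theorem moving_pure (h : A.TrivialBelowMiddle n) :
    PureOn q n (X.actV n X.frob) (X.N n) (moving (A.onV n)) := by
  have hN : ∀ v : X.V n, X.N n (avg (A.onV n) v) = avg (A.onV n) (X.N n v) :=
    avg_comm fun g v => hA.monodromy g n v
  have hF : ∀ v : X.V n, X.actV n X.frob (avg (A.onV n) v) = avg (A.onV n) (X.actV n X.frob v) :=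
    avg_comm fun g v => hA.frob g n v
  have hNk : ∀ (k : ℕ) (v : X.V n), (X.N n ^ k) (avg (A.onV n) v) =
      avg (A.onV n) ((X.N n ^ k) v) := by
    intro k v
    induction k with
    | zero => rfl
    | succ k ih => rw [pow_succ', Module.End.mul_apply, Module.End.mul_apply, ih, hN]
  have hd : ∀ r (x : X.C), X.diff r (avg A.onC x) = avg A.onC (X.diff r x) :=
    fun r => avg_comm fun g v => diff_onC hA r g v
  refine ⟨fun a => X.W n ((n : ℤ) + a) ⊓ moving (A.onV n),
    ⟨fun a b hab => inf_le_inf_right _ (X.W_mono n (by omega)), ?_, ?_, fun a => inf_le_right,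
      ?_, ?_, ?_⟩, ?_, ?_⟩
  · obtain ⟨w, hw⟩ := X.W_bot n
    refine ⟨w - n, ?_⟩
    show X.W n ((n : ℤ) + (w - n)) ⊓ _ = ⊥
    rw [show (n : ℤ) + (w - n) = w by ring, hw, bot_inf_eq]
  · obtain ⟨w, hw⟩ := X.W_top n
    refine ⟨w - n, ?_⟩
    show X.W n ((n : ℤ) + (w - n)) ⊓ _ = _
    rw [show (n : ℤ) + (w - n) = w by ring, hw, top_inf_eq]
  · rintro a v ⟨hv, hv0⟩
    rw [SetLike.mem_coe, mem_moving_iff] at hv0
    obtain ⟨x, hx⟩ := X.sp_left n _ v hv
    refine ⟨X.W_cast (by ring) (X.sp_mem n _ _ _ (X.sp_N n _ _ _ hx)).1, ?_⟩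
    rw [SetLike.mem_coe, mem_moving_iff, ← hN, hv0, map_zero]
  · rintro a v ⟨hv, hv0⟩ ⟨hv', -⟩
    refine ⟨?_, hv0⟩
    rw [SetLike.mem_coe, mem_moving_iff] at hv0
    obtain ⟨x, hx, hx0⟩ := sp_moving hA hv0 hv
    have h1 := X.N_pow_sp hx a le_rfl
    have h2 := (X.sp_ker n _ _ _ h1).1 (X.W_cast (by ring) hv')
    rw [show (n : ℤ) - ((n : ℤ) + a - 2 * a) = a by ring,
      show (n : ℤ) + a - 2 * a = n - a by ring] at h2
    obtain ⟨y, hy, hyx⟩ := h2
    have h3 : ∀ g, A.onC g y = y := fun g => trivial_E₁ hA h (by omega) g hy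
    have h4 : avg A.onC x = x := by
      rw [← hyx, ← hd, avg_of_fixed h3]
    have h5 : x = 0 := by rw [← h4, hx0]
    have h6 := (X.sp_ker n _ _ _ hx).2 (by rw [h5]; exact Submodule.zero_mem _)
    exact X.W_cast (by ring) h6
  · rintro a v ⟨hv, hv0⟩
    rw [SetLike.mem_coe, mem_moving_iff] at hv0
    obtain ⟨y, hy, hy0⟩ := sp_moving hA hv0 hv
    have h1 := (X.sp_mem n _ _ _ hy).2.1
    rw [show (n : ℤ) - (n + -a) = a by ring] at h1
    have h2 : y ∈ X.E₁ (-a) ((n : ℤ) + a) := by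
      rw [← X.E₁_neg] at h1
      exact X.mem_E₁_cast rfl (by ring) h1
    have h3 : X.diff (-a) y = 0 := by
      apply moving_E₁ hA h _ (X.diff_mem h2)
      · rw [← hd, hy0, map_zero]
      · omega
    obtain ⟨v', hv'⟩ := X.sp_right n ((n : ℤ) + a) y (by
      rw [show (n : ℤ) - (n + a) = -a by ring]
      exact ⟨h2, h3⟩)
    have h4 : (v' - avg (A.onV n) v', y) ∈ X.sp n ((n : ℤ) + a) := by
      have h5 := Submodule.sub_mem _ hv' (sp_avg hA hv')
      rw [hy0] at h5
      rwa [Prod.mk_sub_mk, sub_zero] at h5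
    set u := v' - avg (A.onV n) v' with hu
    have hu0 : avg (A.onV n) u = 0 := by rw [hu, map_sub, avg_avg, sub_self]
    refine ⟨u, ⟨(X.sp_mem n _ _ _ h4).1, ?_⟩, ?_, ?_⟩
    · rw [SetLike.mem_coe, mem_moving_iff]
      exact hu0
    · have h5 := X.N_pow_sp h4 a le_rfl
      have h6 : (v - (X.N n ^ a) u, (0 : X.C)) ∈ X.sp n ((n : ℤ) + -a) := by
        have h7 := Submodule.sub_mem _ hy
          (X.sp_cast (show (n : ℤ) + a - 2 * a = n + -a by ring) h5)
        rwa [Prod.mk_sub_mk, sub_self] at h7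
      have h7 := (X.sp_ker n _ _ _ h6).2 (Submodule.zero_mem _)
      exact X.W_cast (by ring) h7
    · rw [SetLike.mem_coe, mem_moving_iff, map_sub, hv0, ← hNk, hu0, map_zero, sub_zero]
  · rintro a v ⟨hv, hv0⟩
    rw [SetLike.mem_coe, mem_moving_iff] at hv0
    obtain ⟨x, hx⟩ := X.sp_left n _ v hv
    refine ⟨(X.sp_mem n _ _ _ (X.sp_act n _ v x X.frob hx)).1, ?_⟩
    rw [SetLike.mem_coe, mem_moving_iff, ← hF, hv0, map_zero]
  · rintro a α v ⟨hv, hv0⟩ hv' ⟨hα, -⟩
    have hv'' : v ∉ X.W n ((n : ℤ) + (a - 1)) := fun h => hv' ⟨h, hv0⟩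
    obtain ⟨x, hx⟩ := X.sp_left n _ v hv
    have h1 := (X.sp_mem n _ _ _ hx).2
    have h2 : x ∉ X.coboundaries (n - (n + a)) (n + a) := by
      intro hc
      exact hv'' (X.W_cast (by ring) ((X.sp_ker n _ _ _ hx).2 hc))
    have h3 : (X.actV n X.frob v - α • v, X.actC (n - (n + a)) X.frob x - α • x) ∈
        X.sp n (n + a) :=
      Submodule.sub_mem _ (X.sp_act n _ v x X.frob hx) (Submodule.smul_mem _ α hx)
    have h5 : X.actC (n - (n + a)) X.frob x - α • x ∈ X.coboundaries (n - (n + a)) (n + a) :=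
      (X.sp_ker n _ _ _ h3).1 (X.W_cast (by ring) hα)
    obtain ⟨y, hy, hy0, hyα⟩ := exists_eigen (S := X.actC (n - (n + a)) X.frob)
      (X.bd_le_zc _ _) (fun x hx => X.actC_bd _ _ _ hx) h1 h2 h5
    have h6 := X.weil_E₁ hy.1 hy0 hyα
    rwa [show (n : ℤ) + a = a + n by ring] at h6

/-- mw purity of the cohomology is equivalent to mw purity of the invariants. -/
theorem pure_iff (h : A.TrivialBelowMiddle n) (i : ℕ) :
    IsMWPure q i (X.actV i X.frob) (X.N i) ↔
      PureOn q i (X.actV i X.frob) (X.N i) (fixed (A.onV i)) := by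
  have hN : ∀ v : X.V i, X.N i (avg (A.onV i) v) = avg (A.onV i) (X.N i v) :=
    avg_comm fun g v => hA.monodromy g i v
  have hF : ∀ v : X.V i, X.actV i X.frob (avg (A.onV i) v) = avg (A.onV i) (X.actV i X.frob v) :=
    avg_comm fun g v => hA.frob g i v
  constructor
  · intro hp
    exact PureOn.summand (avg (A.onV i)) (fun v => mem_fixed_iff)
      (fun v => mem_fixed.2 fun g => avg_fixed _ v g) hF hN hp
  · intro hp
    by_cases hi : i = n
    · subst hi
      exact isMWPure_of_sum (avg (A.onV i)) (fun v => mem_fixed_iff) (fun v => mem_moving_iff)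
        (fun v => avg_avg _ v) hp (moving_pure hA h)
    · obtain ⟨M, hM, hMΦ, hW⟩ := hp
      have htop : fixed (A.onV i) = ⊤ := by
        rw [eq_top_iff]
        intro v _
        exact mem_fixed.2 fun g => trivial_V hA h hi g v
      rw [htop] at hM
      exact ⟨M, ⟨hM.mono, hM.bot, hM.top, hM.map, hM.inj, hM.surj⟩, hMΦ, hW⟩

end

end GroupAction

end Pool.Agent.H849.CC
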