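import Pool.Graph.R_seed8.Y143.MonDefs

/-!
# Finite groups acting on semistable schemes: definitions
-/

set_option autoImplicit false

open Module

universe u v

namespace Pool.Agent.H849.CC

open Pool.Agent.Y143

section general

variable {Ω : Type u} [Field Ω] {V : Type v} [AddCommGroup V] [Module Ω V]

/-- The subspace `S` of `V`, with the action `Φ` of a geometric Frobenius element and the logarithm
`N` of the monodromy, is mw pure of weight `i`: every eigenvalue of `Φ` on the graded piece
`M_a / M_(a - 1)` of the monodromy filtration `M` of `N` on `S` is a `q`-Weil number of weight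
`a + i`. -/
def PureOn [CharZero Ω] (q : ℕ) (i : ℤ) (Φ N : Module.End Ω V) (S : Submodule Ω V) : Prop :=
  ∃ M : ℤ → Submodule Ω V, IsMonodromyFiltrationOn S N M ∧ (∀ a x, x ∈ M a → Φ x ∈ M a) ∧
    ∀ (a : ℤ) (α : Ω) (x : V), x ∈ M a → x ∉ M (a - 1) → Φ x - α • x ∈ M (a - 1) →
      IsWeilNumber q (a + i) α

/-- `f s = s' f`. -/
def Commutes {V' : Type v} [AddCommGroup V'] [Module Ω V'] (f : V →ₗ[Ω] V')
    (s : Module.End Ω V) (s' : Module.End Ω V') : Prop := ∀ x, f (s x) = s' (f x)

/-- `s` maps `S` to `S`. -/
def Preserves (S : Submodule Ω V) (s : Module.End Ω V) : Prop := ∀ x ∈ S, s x ∈ S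

/-- `s` is the identity on `S`. -/
def ActsTriviallyOn (S : Submodule Ω V) (s : Module.End Ω V) : Prop := ∀ x ∈ S, s x = x

/-- `s` respects the bilinear form `B`. -/
def IsIsometry (B : V →ₗ[Ω] V →ₗ[Ω] Ω) (s : Module.End Ω V) : Prop :=
  ∀ x y, ev B (s x) (s y) = ev B x y

/-- The correspondence `S` is stable under `(s, t)`. -/
def PreservesGraph {C : Type v} [AddCommGroup C] [Module Ω C] (S : Submodule Ω (V × C))
    (s : Module.End Ω V) (t : Module.End Ω C) : Prop := ∀ v x, (v, x) ∈ S → (s v, t x) ∈ S

/-- The operator on families given by operators on the components. -/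
def onFamilies {H : ℕ → Type v} [∀ a, AddCommGroup (H a)] [∀ a, Module Ω (H a)]
    (σ : ∀ a, Module.End Ω (H a)) : Module.End Ω (∀ a, H a) :=
  LinearMap.pi fun a => (σ a).comp (LinearMap.proj a)

variable {G : Type} [Group G]

/-- The invariants of the group `G`. -/
def fixed (ρ : G →* Module.End Ω V) : Submodule Ω V := ⨅ g, LinearMap.ker (ρ g - 1)

/-- The complement of the invariants of the finite group `G`: the sum of the subrepresentations
without invariants. -/
def moving [Fintype G] (ρ : G →* Module.End Ω V) : Submodule Ω V := LinearMap.ker (∑ g, ρ g)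

end general

variable {Ω : Type u} [Field Ω] {Γ : Type}

/-- The operators `σ a` on the cohomology of the strata `Y^(a+1)` respect the degrees and the Poincare
pairings, and they commute with the restriction maps. -/
structure IsStrataAut (Y : StrataData.{u, v} Ω Γ) (σ : ∀ a, Module.End Ω (Y.H a)) : Prop where
  gr : ∀ a m, Preserves (Y.gr a m) (σ a)
  pair : ∀ a, IsIsometry (Y.pair a) (σ a)
  res : ∀ a, Commutes (Y.res a) (σ a) (σ (a + 1))

/-- The operators `τ i` on the cohomology groups `H^i` of the geometric generic fibre commute with the
Frobenius and with the monodromy, and, together with the operators `σ a`, they respect the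
identification of the graded pieces of the weight filtration with the terms of the weight spectral
sequence. -/
structure IsGenericAut {Y : StrataData.{u, v} Ω Γ} (E : GenericData Y)
    (σ : ∀ a, Module.End Ω (Y.H a)) (τ : ∀ i, Module.End Ω (E.V i)) : Prop where
  frob : ∀ i, Commutes (E.act i Y.frob) (τ i) (τ i)
  monodromy : ∀ i, Commutes (E.N i) (τ i) (τ i)
  sp : ∀ i w, PreservesGraph (E.sp i w) (τ i) (onFamilies σ)

variable {Y : StrataData.{u, v} Ω Γ}

/-- The subspace `S` of `H^i` of the geometric generic fibre is mw pure of weight `i`. -/
def IsPurePart [CharZero Ω] (E : GenericData Y) (q i : ℕ) (S : Submodule Ω (E.V i)) : Prop :=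
  PureOn q i (E.act i Y.frob) (E.N i) S

/-- The group `H^i` of the geometric generic fibre is mw pure of weight `i`. -/
def IsPureIn [CharZero Ω] (E : GenericData Y) (q i : ℕ) : Prop :=
  IsMWPure q i (E.act i Y.frob) (E.N i)

variable {E : GenericData Y} {G : Type} [Group G]

/-- An action of the group `G` on the cohomology of the strata of the special fibre and on the
cohomology of the geometric generic fibre. -/
structure GroupAction (E : GenericData Y) (G : Type) [Group G] where
  /-- the action on the cohomology of the strata -/
  onH : ∀ a, G →* Module.End Ω (Y.H a)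
  /-- the action on the cohomology of the geometric generic fibre -/
  onV : ∀ i, G →* Module.End Ω (E.V i)

/-- The invariants in `H^i` of the geometric generic fibre. -/
def GroupAction.invariants (A : GroupAction E G) (i : ℕ) : Submodule Ω (E.V i) := fixed (A.onV i)

/-- The complement of the invariants in `H^i` of the geometric generic fibre. -/
def GroupAction.complement [Fintype G] (A : GroupAction E G) (i : ℕ) : Submodule Ω (E.V i) :=
  moving (A.onV i)

/-- The operator of `g` on the cohomology of the stratum `Y^(a+1)`. -/
def GroupAction.opH (A : GroupAction E G) (g : G) (a : ℕ) : Module.End Ω (Y.H a) := A.onH a g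

/-- The operator of `g` on `H^i` of the geometric generic fibre. -/
def GroupAction.opV (A : GroupAction E G) (g : G) (i : ℕ) : Module.End Ω (E.V i) := A.onV i g

/-- The properties of the action of `G` on the cohomology if `G` acts on the scheme. -/
def GroupAction.IsAction (A : GroupAction E G) : Prop :=
  ∀ g, IsStrataAut Y (A.opH g) ∧ IsGenericAut E (A.opH g) (A.opV g)

/-- `G` acts trivially on the cohomology of each stratum `Y^(a+1)` in the degrees less than its
dimension `n - a`. By the weak Lefschetz theorem this is true if `G` is generated by automorphisms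
each of which fixes pointwise an ample divisor which is transversal to all the strata: the
restriction to the divisor is injective in these degrees. -/
def GroupAction.TrivialBelowMiddle (A : GroupAction E G) (n : ℕ) : Prop :=
  ∀ (g : G) (a : ℕ) (m : ℤ), m < n - a → ActsTriviallyOn (Y.gr a m) (A.opH g a)

end Pool.Agent.H849.CC
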