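import Pool.Agent.H849.CC.Defs
import Pool.Graph.R_seed8.Y143.Mon

/-!
# mw purity and direct sums
-/

set_option autoImplicit false

open Module

universe u v

namespace Pool.Agent.H849.CC

open Pool.Agent.Y143

variable {Ω : Type u} [Field Ω] [CharZero Ω] {V : Type v} [AddCommGroup V] [Module Ω V] {q : ℕ}
  {i : ℤ} {Φ N : Module.End Ω V}

/-- A direct summand of an mw pure module is mw pure. -/
theorem PureOn.summand {S : Submodule Ω V} (P : Module.End Ω V) (hP : ∀ x, x ∈ S ↔ P x = x)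
    (hPS : ∀ x, P x ∈ S) (hΦ : ∀ x, Φ (P x) = P (Φ x)) (hN : ∀ x, N (P x) = P (N x))
    (h : IsMWPure q i Φ N) : PureOn q i Φ N S := by
  obtain ⟨M, hM, hMΦ, hW⟩ := h
  have hfun : ∀ a x, x ∈ M a → P x ∈ M a := by
    intro a x hx
    exact IsMonodromyFiltrationOn.functorial hM.on hM.on P (fun _ _ => trivial) one_ne_zero
      (fun x _ => by rw [one_smul, hN]) a hx
  have hNS : ∀ x ∈ S, N x ∈ S := by
    intro x hx
    rw [hP] at hx ⊢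
    rw [← hN, hx]
  have hNk : ∀ (k : ℕ) x, (N ^ k) (P x) = P ((N ^ k) x) := by
    intro k x
    induction k with
    | zero => rfl
    | succ k ih => rw [pow_succ', Module.End.mul_apply, Module.End.mul_apply, ih, hN]
  refine ⟨fun a => M a ⊓ S, ⟨fun a b hab => inf_le_inf_right _ (hM.mono hab), ?_, ?_,
    fun a => inf_le_right, ?_, ?_, ?_⟩, ?_, ?_⟩
  · obtain ⟨a, ha⟩ := hM.bot
    exact ⟨a, by simp [ha]⟩
  · obtain ⟨a, ha⟩ := hM.top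
    exact ⟨a, by simp [ha]⟩
  · rintro a x ⟨hx, hxS⟩
    exact ⟨hM.map a x hx, hNS x hxS⟩
  · rintro a x ⟨hx, hxS⟩ ⟨hx', -⟩
    exact ⟨hM.inj a x hx hx', hxS⟩
  · rintro a y ⟨hy, hyS⟩
    obtain ⟨x, hx, hxy⟩ := hM.surj a y hy
    refine ⟨P x, ⟨hfun _ _ hx, hPS x⟩, ?_⟩
    have h1 : y - (N ^ a) (P x) = P (y - (N ^ a) x) := by
      rw [map_sub, (hP y).1 hyS, hNk]
    rw [h1]
    exact ⟨hfun _ _ hxy, hPS _⟩
  · rintro a x ⟨hx, hxS⟩
    refine ⟨hMΦ a x hx, ?_⟩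
    rw [SetLike.mem_coe, hP] at hxS ⊢
    rw [← hΦ, hxS]
  · rintro a α x ⟨hx, hxS⟩ hx' ⟨hα, -⟩
    exact hW a α x hx (fun h => hx' ⟨h, hxS⟩) hα

/-- The sum of two mw pure modules is mw pure. -/
theorem isMWPure_of_sum {S T : Submodule Ω V} (P : Module.End Ω V)
    (hP : ∀ x, x ∈ S ↔ P x = x) (hT : ∀ x, x ∈ T ↔ P x = 0) (hPP : ∀ x, P (P x) = P x)
    (hS' : PureOn q i Φ N S) (hT' : PureOn q i Φ N T) : IsMWPure q i Φ N := by
  obtain ⟨M₁, h₁, hΦ₁, hW₁⟩ := hS'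
  obtain ⟨M₂, h₂, hΦ₂, hW₂⟩ := hT'
  -- the components
  have hP1 : ∀ a x, x ∈ M₁ a → P x = x := fun a x hx => (hP x).1 (h₁.le a hx)
  have hP2 : ∀ a x, x ∈ M₂ a → P x = 0 := fun a x hx => (hT x).1 (h₂.le a hx)
  have hmem : ∀ a x, x ∈ M₁ a ⊔ M₂ a ↔ P x ∈ M₁ a ∧ x - P x ∈ M₂ a := by
    intro a x
    constructor
    · intro hx
      obtain ⟨y, hy, z, hz, rfl⟩ := Submodule.mem_sup.1 hx
      rw [map_add, hP1 a y hy, hP2 a z hz, add_zero]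
      refine ⟨hy, ?_⟩
      rwa [add_sub_cancel_left]
    · rintro ⟨h1, h2⟩
      refine Submodule.mem_sup.2 ⟨P x, h1, x - P x, h2, by abel⟩
  -- compatibility of `P` with `N` and `Φ`
  obtain ⟨a₁, ha₁⟩ := h₁.top
  obtain ⟨a₂, ha₂⟩ := h₂.top
  have hNS : ∀ x ∈ S, N x ∈ S := fun x hx => h₁.stable hx
  have hNT : ∀ x ∈ T, N x ∈ T := fun x hx => h₂.stable hx
  have hΦS : ∀ x ∈ S, Φ x ∈ S := fun x hx => by
    rw [← ha₁] at hx ⊢
    exact hΦ₁ _ _ hx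
  have hΦT : ∀ x ∈ T, Φ x ∈ T := fun x hx => by
    rw [← ha₂] at hx ⊢
    exact hΦ₂ _ _ hx
  have hPS : ∀ x, P x ∈ S := fun x => (hP _).2 (hPP x)
  have hPT : ∀ x, x - P x ∈ T := fun x => (hT _).2 (by rw [map_sub, hPP, sub_self])
  have hcomm : ∀ f : Module.End Ω V, (∀ x ∈ S, f x ∈ S) → (∀ x ∈ T, f x ∈ T) →
      ∀ x, P (f x) = f (P x) := by
    intro f hfS hfT x
    have e : x = P x + (x - P x) := by abel
    conv_lhs => rw [e]
    rw [map_add, map_add, (hP _).1 (hfS _ (hPS x)), (hT _).1 (hfT _ (hPT x)), add_zero]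
  have hN : ∀ x, P (N x) = N (P x) := hcomm N hNS hNT
  have hΦ : ∀ x, P (Φ x) = Φ (P x) := hcomm Φ hΦS hΦT
  have hNk : ∀ (k : ℕ) x, P ((N ^ k) x) = (N ^ k) (P x) := by
    intro k x
    induction k with
    | zero => rfl
    | succ k ih => rw [pow_succ', Module.End.mul_apply, Module.End.mul_apply, hN, ih]
  refine ⟨fun a => M₁ a ⊔ M₂ a, ⟨fun a b hab => sup_le_sup (h₁.mono hab) (h₂.mono hab), ?_, ?_,
    ?_, ?_, ?_⟩, ?_, ?_⟩
  · obtain ⟨b₁, hb₁⟩ := h₁.bot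
    obtain ⟨b₂, hb₂⟩ := h₂.bot
    refine ⟨min b₁ b₂, ?_⟩
    rw [eq_bot_iff]
    apply sup_le
    · rw [← hb₁]
      exact h₁.mono (min_le_left _ _)
    · rw [← hb₂]
      exact h₂.mono (min_le_right _ _)
  · refine ⟨max a₁ a₂, ?_⟩
    rw [eq_top_iff]
    intro x _
    rw [hmem]
    refine ⟨h₁.mono (le_max_left _ _) ?_, h₂.mono (le_max_right _ _) ?_⟩
    · rw [ha₁]
      exact hPS x
    · rw [ha₂]
      exact hPT x
  · intro a x hx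
    rw [hmem] at hx ⊢
    rw [hN, ← map_sub]
    exact ⟨h₁.map _ _ hx.1, h₂.map _ _ hx.2⟩
  · intro a x hx hx'
    rw [hmem] at hx hx' ⊢
    rw [hNk, ← map_sub] at hx'
    exact ⟨h₁.inj a _ hx.1 hx'.1, h₂.inj a _ hx.2 hx'.2⟩
  · intro a y hy
    rw [hmem] at hy
    obtain ⟨x₁, hx₁, h3⟩ := h₁.surj a _ hy.1
    obtain ⟨x₂, hx₂, h4⟩ := h₂.surj a _ hy.2
    refine ⟨x₁ + x₂, Submodule.mem_sup.2 ⟨x₁, hx₁, x₂, hx₂, rfl⟩, ?_⟩
    refine Submodule.mem_sup.2 ⟨_, h3, _, h4, ?_⟩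
    rw [map_add]
    abel
  · intro a x hx
    rw [hmem] at hx ⊢
    rw [hΦ, ← map_sub]
    exact ⟨hΦ₁ _ _ hx.1, hΦ₂ _ _ hx.2⟩
  · intro a α x hx hx' hα
    rw [hmem] at hx hx' hα
    have e1 : P (Φ x - α • x) = Φ (P x) - α • P x := by rw [map_sub, map_smul, hΦ]
    have e2 : Φ x - α • x - P (Φ x - α • x) = Φ (x - P x) - α • (x - P x) := by
      rw [e1, map_sub, smul_sub]
      abel
    rw [e2, e1] at hα
    by_cases h : P x ∈ M₁ (a - 1)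
    · exact hW₂ a α _ hx.2 (fun h' => hx' ⟨h, h'⟩) hα.2
    · exact hW₁ a α _ hx.1 h hα.1

end Pool.Agent.H849.CC
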